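import Mathlib
import Pool.Agent.N604.MW.Stm10
import Pool.Agent.N933.KW_DKey
import Pool.Agent.N545.KW_DMeasq

/-!
# Project AD (helper604), part AKEY3 (helper186): few large frequencies
-/

namespace Pool.Agent.N186.AD

open Finset MeasureTheory Pool.Agent.N604.MW Pool.Agent.N933.KW

/-- the integral over the frequencies which are small on `J` -/
theorem int_J (n ρ : ℕ) (U : ℝ) (hU : 0 ≤ U) (J : Finset (Fin n)) (hJ : J.card = ρ) :
    ∫⁻ γ : Fin n → ℝ, {γ : Fin n → ℝ | ∀ j ∈ J, |γ j| ≤ U}.indicator (Q n) γ ≤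
      ENNReal.ofReal (6 ^ n * (2 * U) ^ ρ) := by
  classical
  have h := Pool.Agent.N545.KW.dmeasq n ρ U 1
    (fun i a => if a = J.orderEmbOfFin hJ i then 1 else 0) (J.orderEmbOfFin hJ) hU one_pos (by
      have : (Matrix.of fun i j : Fin ρ =>
          if J.orderEmbOfFin hJ j = J.orderEmbOfFin hJ i then (1 : ℝ) else 0) = 1 := by
        ext i j
        rw [Matrix.of_apply, Matrix.one_apply]
        by_cases hij : i = j
        · subst hij; simp
        · rw [if_neg hij, if_neg]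
          intro h
          exact hij ((J.orderEmbOfFin hJ).injective h).symm
      rw [this, Matrix.det_one, abs_one])
  have hset : {γ : Fin n → ℝ | ∀ i : Fin ρ, |∑ a, γ a *
      (if a = J.orderEmbOfFin hJ i then (1 : ℝ) else 0)| ≤ U} =
      {γ : Fin n → ℝ | ∀ j ∈ J, |γ j| ≤ U} := by
    ext γ
    simp only [Set.mem_ofPred_eq, mul_ite, mul_one, mul_zero, Finset.sum_ite_eq', Finset.mem_univ,
      if_true]
    constructor
    · intro h j hj
      have : j ∈ Set.range (J.orderEmbOfFin hJ) := by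
        rw [Finset.range_orderEmbOfFin]; exact hj
      obtain ⟨i, rfl⟩ := this
      exact h i
    · intro h i
      exact h _ (Finset.orderEmbOfFin_mem J hJ i)
  rw [hset, div_one] at h
  exact h

theorem GD_le (n k X : ℕ) (hX : 1 ≤ X) (γ : Fin n → ℝ) : GD n k X γ ≤ (2 * (X : ℝ)) ^ n := by
  unfold GD
  have hX' : (1 : ℝ) ≤ X := by exact_mod_cast hX
  calc ∑ x ∈ Fintype.piFinset (fun _ : Fin n => Finset.Icc X (2 * X)),
        Real.exp (-(2 * Real.pi ^ 2 * (∑ j, γ j * (x j : ℝ) ^ k) ^ 2))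
      ≤ ∑ x ∈ Fintype.piFinset (fun _ : Fin n => Finset.Icc X (2 * X)), (1 : ℝ) := by
        refine Finset.sum_le_sum (fun x _ => ?_)
        rw [← Real.exp_zero]
        apply Real.exp_le_exp.2
        have : 0 ≤ 2 * Real.pi ^ 2 * (∑ j, γ j * (x j : ℝ) ^ k) ^ 2 := by positivity
        linarith
    _ = ((X : ℝ) + 1) ^ n := by
        have h : 2 * X + 1 - X = X + 1 := by omega
        rw [Finset.sum_const, nsmul_eq_mul, mul_one, Fintype.card_piFinset]
        simp only [Nat.card_Icc, Finset.prod_const, Finset.card_univ, Fintype.card_fin, h]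
        push_cast
        ring
    _ ≤ (2 * (X : ℝ)) ^ n := pow_le_pow_left₀ (by positivity) (by linarith) n

theorem GD_nonneg (n k X : ℕ) (γ : Fin n → ℝ) : 0 ≤ GD n k X γ :=
  Finset.sum_nonneg (fun _ _ => (Real.exp_pos _).le)

theorem exists_J (n k r X : ℕ) (γ : Fin n → ℝ) (h : NB n k r X γ < nr r) :
    ∃ J : Finset (Fin n), J.card = n - nr r ∧ ∀ j ∈ J, |γ j| ≤ (X : ℝ) ^ (-(k : ℝ) + r) := by
  classical
  unfold NB at h
  have h1 := Finset.card_filter_add_card_filter_not (s := (Finset.univ : Finset (Fin n)))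
    (fun j => (X : ℝ) ^ (-(k : ℝ) + r) ≤ |γ j|)
  rw [Finset.card_univ, Fintype.card_fin] at h1
  have h2 : (Finset.univ.filter fun j => (X : ℝ) ^ (-(k : ℝ) + r) ≤ |γ j|).card < nr r := by
    convert h
  have h3 : n - nr r ≤ (Finset.univ.filter fun j => ¬ (X : ℝ) ^ (-(k : ℝ) + r) ≤ |γ j|).card := by
    omega
  obtain ⟨J, hJ, hJc⟩ := Finset.exists_subset_card_eq h3
  refine ⟨J, hJc, fun j hj => ?_⟩
  have := (Finset.mem_filter.1 (hJ hj)).2
  exact (not_le.1 this).le

theorem akey3 : S_AKEY3 := by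
  intro r m k s X hX hr hrk hm hnr
  classical
  set n := 2 * m with hn
  set U : ℝ := (X : ℝ) ^ (-(k : ℝ) + r) with hU
  have hX0 : (0 : ℝ) < X := by exact_mod_cast hX
  have hU0 : 0 ≤ U := by rw [hU]; positivity
  set M : ℝ := (2 * (X : ℝ)) ^ (n * s) with hM
  have hM0 : 0 ≤ M := by positivity
  set ρ := n - nr r with hρ
  have hpt : ∀ γ : Fin n → ℝ, {γ : Fin n → ℝ | NB n k r X γ < nr r}.indicator
      (fun γ => ENNReal.ofReal ((∏ j, qq (γ j)) * GD n k X γ ^ s)) γ ≤
      ∑ J ∈ Finset.powersetCard ρ (Finset.univ : Finset (Fin n)),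
        ENNReal.ofReal M * {γ : Fin n → ℝ | ∀ j ∈ J, |γ j| ≤ U}.indicator (Q n) γ := by
    intro γ
    by_cases hγ : NB n k r X γ < nr r
    · rw [Set.indicator_of_mem (show γ ∈ {γ : Fin n → ℝ | NB n k r X γ < nr r} from hγ)]
      obtain ⟨J, hJ, hJU⟩ := exists_J n k r X γ hγ
      refine le_trans ?_ (Finset.single_le_sum (f := fun J => ENNReal.ofReal M *
        {γ : Fin n → ℝ | ∀ j ∈ J, |γ j| ≤ U}.indicator (Q n) γ) (fun _ _ => zero_le)
        (Finset.mem_powersetCard.2 ⟨Finset.subset_univ J, hJ⟩))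
      show _ ≤ ENNReal.ofReal M * {γ : Fin n → ℝ | ∀ j ∈ J, |γ j| ≤ U}.indicator (Q n) γ
      rw [Set.indicator_of_mem (show γ ∈ {γ : Fin n → ℝ | ∀ j ∈ J, |γ j| ≤ U} from hJU)]
      unfold Q
      rw [← ENNReal.ofReal_mul hM0]
      apply ENNReal.ofReal_le_ofReal
      rw [mul_comm]
      have hq : 0 ≤ ∏ j, qq (γ j) := Finset.prod_nonneg (fun j _ => qq_nonneg _)
      refine mul_le_mul_of_nonneg_right ?_ hq
      rw [hM, pow_mul]
      exact pow_le_pow_left₀ (GD_nonneg n k X γ) (GD_le n k X hX γ) s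
    · rw [Set.indicator_of_notMem (show γ ∉ {γ : Fin n → ℝ | NB n k r X γ < nr r} from hγ)]
      exact zero_le
  have hms : ∀ J : Finset (Fin n), MeasurableSet {γ : Fin n → ℝ | ∀ j ∈ J, |γ j| ≤ U} := by
    intro J
    have : {γ : Fin n → ℝ | ∀ j ∈ J, |γ j| ≤ U} = ⋂ j ∈ J, {γ : Fin n → ℝ | |γ j| ≤ U} := by
      ext γ; simp
    rw [this]
    exact Finset.measurableSet_biInter _ (fun j _ =>
      (isClosed_le (by fun_prop) (by fun_prop)).measurableSet)
  calc ∫⁻ γ : Fin n → ℝ, {γ : Fin n → ℝ | NB n k r X γ < nr r}.indicator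
        (fun γ => ENNReal.ofReal ((∏ j, qq (γ j)) * GD n k X γ ^ s)) γ
      ≤ ∫⁻ γ : Fin n → ℝ, ∑ J ∈ Finset.powersetCard ρ (Finset.univ : Finset (Fin n)),
        ENNReal.ofReal M * {γ : Fin n → ℝ | ∀ j ∈ J, |γ j| ≤ U}.indicator (Q n) γ :=
        lintegral_mono hpt
    _ = ∑ J ∈ Finset.powersetCard ρ (Finset.univ : Finset (Fin n)),
        ENNReal.ofReal M * ∫⁻ γ : Fin n → ℝ,
          {γ : Fin n → ℝ | ∀ j ∈ J, |γ j| ≤ U}.indicator (Q n) γ := by
        rw [lintegral_finsetSum]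
        · refine Finset.sum_congr rfl (fun J _ => ?_)
          rw [lintegral_const_mul _ ((Q_meas n).indicator (hms J))]
        · intro J _
          exact ((Q_meas n).indicator (hms J)).const_mul _
    _ ≤ ∑ J ∈ Finset.powersetCard ρ (Finset.univ : Finset (Fin n)),
        ENNReal.ofReal (M * (6 ^ n * (2 * U) ^ ρ)) := by
        refine Finset.sum_le_sum (fun J hJ => ?_)
        rw [ENNReal.ofReal_mul hM0]
        gcongr
        exact int_J n ρ U hU0 J (Finset.mem_powersetCard.1 hJ).2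
    _ = ENNReal.ofReal ((n.choose ρ : ℝ) * (M * (6 ^ n * (2 * U) ^ ρ))) := by
        rw [Finset.sum_const, Finset.card_powersetCard, Finset.card_univ, Fintype.card_fin,
          nsmul_eq_mul, ENNReal.ofReal_mul (p := (n.choose ρ : ℝ)) (by positivity),
          ENNReal.ofReal_natCast]
    _ ≤ _ := by
        apply ENNReal.ofReal_le_ofReal
        have hc : (n.choose ρ : ℝ) ≤ 2 ^ n := by exact_mod_cast Nat.choose_le_two_pow n ρ
        have hρn : ρ ≤ n := by omega
        have h2 : (2 : ℝ) ^ ρ ≤ 2 ^ n := pow_le_pow_right₀ (by norm_num) hρn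
        have hUρ : U ^ ρ = (X : ℝ) ^ (-(((k : ℝ) - r) * (2 * m - nr r))) := by
          rw [hU, ← Real.rpow_natCast, ← Real.rpow_mul hX0.le]
          congr 1
          rw [hρ, Nat.cast_sub hnr, hn]
          push_cast
          ring
        rw [← hUρ, mul_pow]
        have hUρ0 : 0 ≤ U ^ ρ := by positivity
        calc (n.choose ρ : ℝ) * (M * (6 ^ n * (2 ^ ρ * U ^ ρ)))
            ≤ 2 ^ n * (M * (6 ^ n * (2 ^ n * U ^ ρ))) := by gcongr
          _ = 24 ^ n * M * U ^ ρ := by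
              have : (24 : ℝ) ^ n = 2 ^ n * 6 ^ n * 2 ^ n := by
                rw [← mul_pow, ← mul_pow]; norm_num
              rw [this]
              ring

end Pool.Agent.N186.AD
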