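import Mathlib
import Pool.Agent.N988.EZ.Stm

/-!
# Exactly one pair of ground states: the deterministic part
-/

open Pool.Agent.N988.EA Pool.Agent.N988.EZ

namespace Pool.Agent.N186.EZ

variable {b : ℕ}

/-- restriction to a half of a branch -/
def R (q : Fin b × Bool) {n : ℕ} (s : Pt b (n + 1) → Bool) : Pt b n → Bool :=
  fun x => s (emb q.1 q.2 x)

/-- the opposite configuration -/
def fl {n : ℕ} (s : Pt b n → Bool) : Pt b n → Bool := fun x => !(s x)

/-- the inner spins maximise the action -/
def Good {n : ℕ} (J : Edge b n → ℝ) (s : Pt b n → Bool) : Prop :=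
  Mx J (fun t => s (.inl t)) (fun x => s (.inr x))

/-- the product of the end spins has the sign of the coupling -/
def Sgn {n : ℕ} (J : Edge b n → ℝ) (s : Pt b n → Bool) : Prop :=
  0 < K0 n J * sg (s (.inl false)) * sg (s (.inl true))

theorem sg_not (x : Bool) : sg (!x) = - sg x := by cases x <;> simp [sg]

theorem core (O S : ℝ) (x y z : Bool) (h : |S| < |O|)
    (h0 : 0 ≤ sg x * (O * sg y + S * sg z)) : 0 < O * sg y * sg x := by
  cases x <;> cases y <;> cases z <;> simp [sg] at * <;>
    rcases abs_cases O with ⟨h1, h2⟩ | ⟨h1, h2⟩ <;>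
    rcases abs_cases S with ⟨h3, h4⟩ | ⟨h3, h4⟩ <;> rw [h1, h3] at h <;> linarith

theorem act_flip {n : ℕ} (J : Edge b n → ℝ) (τ : Bool → Bool) (σ : Vert b n → Bool) :
    act J (fun t => !(τ t)) (fun x => !(σ x)) = act J τ σ := by
  unfold act
  refine Finset.sum_congr rfl fun e _ => ?_
  have h : ∀ y : Pt b n, Sum.elim (fun t => !(τ t)) (fun x => !(σ x)) y = !(Sum.elim τ σ y) := by
    intro y
    cases y <;> rfl
  rw [h, h, sg_not, sg_not]
  ring

theorem good_flip {n : ℕ} {J : Edge b n → ℝ} {s : Pt b n → Bool} (h : Good J s) :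
    Good J (fl s) := by
  intro s'
  have h1 := act_flip J (fun t => s (.inl t)) (fun x => !(s' x))
  have h2 := act_flip J (fun t => s (.inl t)) (fun x => s (.inr x))
  simp only [Bool.not_not] at h1
  unfold fl
  rw [h1, h2]
  exact h _

theorem sgn_flip {n : ℕ} {J : Edge b n → ℝ} {s : Pt b n → Bool} (h : Sgn J s) :
    Sgn J (fl s) := by
  unfold Sgn fl at *
  rw [sg_not, sg_not]
  linarith

theorem good_eq {n : ℕ} {J : Edge b n → ℝ} (hU : UM J) {s s' : Pt b n → Bool} (h : Good J s)
    (h' : Good J s') (he : ∀ t, s (.inl t) = s' (.inl t)) : s = s' := by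
  have h1 : (fun t => s (.inl t)) = fun t => s' (.inl t) := funext he
  unfold Good at h h'
  rw [← h1] at h'
  have h2 := (hU _).unique h h'
  funext x
  cases x with
  | inl t => exact he t
  | inr x => exact congrFun h2 x

/-- two configurations with these properties agree up to the global flip -/
theorem eq_or {n : ℕ} {J : Edge b n → ℝ} (hU : UM J) {s s' : Pt b n → Bool} (h : Good J s)
    (h' : Good J s') (g : Sgn J s) (g' : Sgn J s') : s = s' ∨ s = fl s' := by
  by_cases h0 : s (.inl false) = s' (.inl false)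
  · left
    refine good_eq hU h h' fun t => ?_
    cases t with
    | false => exact h0
    | true =>
      unfold Sgn at g g'
      rw [← h0] at g'
      by_contra hne
      have h1 : s' (.inl true) = !(s (.inl true)) := by
        cases h2 : s' (.inl true) <;> cases h3 : s (.inl true) <;> simp_all
      rw [h1, sg_not] at g'
      linarith
  · right
    refine good_eq hU h (good_flip h') fun t => ?_
    have h0' : s (.inl false) = !(s' (.inl false)) := by
      cases h2 : s' (.inl false) <;> cases h3 : s (.inl false) <;> simp_all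
    cases t with
    | false => exact h0'
    | true =>
      unfold Sgn at g g'
      rw [h0', sg_not] at g
      by_contra hne
      have h1 : s (.inl true) = s' (.inl true) := by
        unfold fl at hne
        cases h2 : s' (.inl true) <;> cases h3 : s (.inl true) <;> simp_all
      rw [h1] at g
      linarith

theorem fl_ne {n : ℕ} (s : Pt b n → Bool) (x : Pt b n) : fl s x ≠ s x := by
  unfold fl
  cases s x <;> simp

theorem restr (p : ℕ → Fin b × Bool) (J : EdgeInf b p → ℝ) (n : ℕ) :
    (fun e => cpl p J (n + 1) ((p n).1, (p n).2, e)) = cpl p J n := by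
  funext e
  simp [cpl]

theorem R_inl (q : Fin b × Bool) {n : ℕ} (s : Pt b (n + 1) → Bool) (t : Bool) :
    R q s (.inl t) =
      if t = q.2 then s (.inl t) else s (Sum.inr (Sum.inl q.1 : Vert b (n + 1))) := by
  by_cases ht : t = q.2
  · rw [if_pos ht, ht]
    change s (if q.2 = q.2 then .inl q.2 else .inr (.inl q.1)) = _
    rw [if_pos rfl]
  · rw [if_neg ht]
    change s (if t = q.2 then .inl q.2 else .inr (.inl q.1)) = _
    rw [if_neg ht]

theorem down (hRS : S_RS) (p : ℕ → Fin b × Bool) (J : EdgeInf b p → ℝ) (n : ℕ)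
    (s : Pt b (n + 1) → Bool) (hs : Good (cpl p J (n + 1)) s) :
    Good (cpl p J n) (R (p n) s) ∧ (|sib0 p J n| < |own0 p J n| → Sgn (cpl p J n) (R (p n) s)) := by
  have h1 := (hRS b n (cpl p J (n + 1)) (fun t => s (.inl t)) (fun x => s (.inr x))).1 hs (p n).1
  obtain ⟨h2, h3⟩ := h1
  refine ⟨?_, fun hlt => ?_⟩
  · have h4 := h2 (p n).2
    rw [restr] at h4
    have e1 : (fun t => R (p n) s (.inl t)) = he (fun t => s (Sum.inl t)) (p n).2
        (s (Sum.inr (Sum.inl (p n).1 : Vert b (n + 1)))) := by
      funext t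
      rw [R_inl]
      rfl
    unfold Good
    rw [e1]
    exact h4
  · unfold sib0 own0 at hlt
    unfold Sgn
    rw [R_inl, R_inl]
    rw [← restr p J n] at hlt ⊢
    revert hlt h3
    generalize hK : (fun h : Bool => K0 n fun e => cpl p J (n + 1) ((p n).1, h, e)) = KK
    have hK' : ∀ h, (K0 n fun e => cpl p J (n + 1) ((p n).1, h, e)) = KK h := fun h => by
      rw [← hK]
    simp only [hK']
    cases (p n).2 with
    | false =>
      intro h3 hlt
      simp only [Bool.not_false] at hlt
      simp only [if_true, Bool.true_eq_false, if_false]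
      exact core _ _ _ _ _ hlt h3
    | true =>
      intro h3 hlt
      simp only [Bool.not_true] at hlt
      simp only [if_true, Bool.false_eq_true, if_false]
      have := core (KK true) (KK false) (s (Sum.inr (Sum.inl (p n).1 : Vert b (n + 1))))
        (s (Sum.inl true)) (s (Sum.inl false)) hlt (h3.trans_eq (by ring))
      exact this.trans_eq (by ring)

/-- the restrictions of a configuration of `H n` to the lower levels -/
def F (p : ℕ → Fin b × Bool) : (n : ℕ) → (Pt b n → Bool) → (m : ℕ) → Pt b m → Bool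
  | 0, s => fun m => if h : m = 0 then h ▸ s else fun _ => true
  | n + 1, s => fun m => if h : m = n + 1 then h ▸ s else F p n (R (p n) s) m

theorem F_self (p : ℕ → Fin b × Bool) (n : ℕ) (s : Pt b n → Bool) : F p n s n = s := by
  cases n <;> simp [F]

theorem F_succ (p : ℕ → Fin b × Bool) (n : ℕ) (s : Pt b (n + 1) → Bool) (m : ℕ) (h : m ≤ n) :
    F p (n + 1) s m = F p n (R (p n) s) m := by
  have : m ≠ n + 1 := by omega
  simp [F, this]

theorem F_step (p : ℕ → Fin b × Bool) (n : ℕ) : ∀ (s : Pt b n → Bool) (m : ℕ), m < n →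
    F p n s m = R (p m) (F p n s (m + 1)) := by
  induction n with
  | zero => intro s m hm; omega
  | succ n ih =>
    intro s m hm
    rw [F_succ p n s m (by omega)]
    rcases Nat.lt_or_ge m n with h | h
    · rw [F_succ p n s (m + 1) (by omega), ih _ m h]
    · obtain rfl : m = n := by omega
      rw [F_self, F_self]

/-- families which agree at a level agree below it -/
theorem agree (p : ℕ → Fin b × Bool) (f g : (m : ℕ) → Pt b m → Bool) (n : ℕ)
    (hf : ∀ m < n, f m = R (p m) (f (m + 1))) (hg : ∀ m < n, g m = R (p m) (g (m + 1)))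
    (h : f n = g n) : ∀ d m, m + d = n → f m = g m := by
  intro d
  induction d with
  | zero => intro m hm; obtain rfl : m = n := by omega
            exact h
  | succ d ih =>
    intro m hm
    rw [hf m (by omega), hg m (by omega), ih (m + 1) (by omega)]

/-- the root -/
def rt (p : ℕ → Fin b × Bool) : (m : ℕ) → Pt b m
  | 0 => .inl true
  | m + 1 => emb (p m).1 (p m).2 (rt p m)

theorem root (p : ℕ → Fin b × Bool) (f : (m : ℕ) → Pt b m → Bool) (n : ℕ)
    (hf : ∀ m < n, f m = R (p m) (f (m + 1))) : f n (rt p n) = f 0 (rt p 0) := by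
  induction n with
  | zero => rfl
  | succ n ih =>
    rw [← ih fun m hm => hf m (by omega), hf n (by omega)]
    rfl

theorem fam_good (hRS : S_RS) (p : ℕ → Fin b × Bool) (J : EdgeInf b p → ℝ) (n : ℕ)
    (f : (m : ℕ) → Pt b m → Bool) (hf : ∀ m < n, f m = R (p m) (f (m + 1)))
    (h : Good (cpl p J n) (f n)) : ∀ d m, m + d = n → Good (cpl p J m) (f m) := by
  intro d
  induction d with
  | zero => intro m hm; obtain rfl : m = n := by omega
            exact h
  | succ d ih =>
    intro m hm
    rw [hf m (by omega)]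
    exact (down hRS p J m _ (ih (m + 1) (by omega))).1

theorem t_DET (h : S_RS) : S_DET := by
  intro b p J hU hI
  -- existence at one level
  have hex : ∀ n, |sib0 p J n| < |own0 p J n| →
      ∃ s : Pt b n → Bool, Good (cpl p J n) s ∧ Sgn (cpl p J n) s ∧ s (rt p n) = true := by
    intro n hn
    have hpos : 0 < |K0 n (cpl p J n)| := lt_of_le_of_lt (abs_nonneg _) hn
    have h1 : ∃ s : Pt b n → Bool, Good (cpl p J n) s ∧ Sgn (cpl p J n) s := by
      obtain ⟨σ, hσ, _⟩ := hU n (fun t => if t then decide (0 < K0 n (cpl p J n)) else true)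
      refine ⟨Sum.elim (fun t => if t then decide (0 < K0 n (cpl p J n)) else true) σ, hσ, ?_⟩
      unfold Sgn
      by_cases hK : 0 < K0 n (cpl p J n)
      · simp [sg, hK]
      · have : K0 n (cpl p J n) < 0 := lt_of_le_of_ne (not_lt.1 hK) (abs_pos.1 hpos)
        simp [sg, hK, this]
    obtain ⟨s, hs1, hs2⟩ := h1
    by_cases hr : s (rt p n) = true
    · exact ⟨s, hs1, hs2, hr⟩
    · refine ⟨fl s, good_flip hs1, sgn_flip hs2, ?_⟩
      unfold fl
      simpa using hr
  choose N hN1 hN2 using hI
  choose S hS1 hS2 hS3 using hex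
  -- uniqueness at one level
  have huq : ∀ n (s s' : Pt b n → Bool), Good (cpl p J n) s → Good (cpl p J n) s' →
      Sgn (cpl p J n) s → Sgn (cpl p J n) s' → s (rt p n) = s' (rt p n) → s = s' := by
    intro n s s' h1 h2 h3 h4 h5
    rcases eq_or (hU n) h1 h2 h3 h4 with h6 | h6
    · exact h6
    · rw [h6] at h5
      exact absurd h5 (fl_ne s' _)
  -- a family which is good at all levels up to `n'` is determined below `n'` by its root
  have hdet : ∀ (n n' : ℕ) (f g : (m : ℕ) → Pt b m → Bool),
      |sib0 p J n| < |own0 p J n| → n ≤ n' →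
      (∀ m < n', f m = R (p m) (f (m + 1))) → (∀ m < n, g m = R (p m) (g (m + 1))) →
      Good (cpl p J n') (f n') → Sgn (cpl p J n') (f n') → Good (cpl p J n) (g n) →
      Sgn (cpl p J n) (g n) → f 0 (rt p 0) = g 0 (rt p 0) → ∀ m ≤ n, f m = g m := by
    intro n n' f g hn hnn hf hg hf1 hf2 hg1 hg2 hr m hm
    have hfn : f n = g n := by
      refine huq n _ _ (fam_good h p J n' f hf hf1 (n' - n) n (by omega)) hg1 ?_ hg2 ?_
      · rcases Nat.eq_or_lt_of_le hnn with rfl | hlt
        · exact hf2
        · rw [hf n hlt]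
          exact (down h p J n _ (fam_good h p J n' f hf hf1 (n' - (n + 1)) (n + 1)
            (by omega))).2 hn
      · rw [root p f n fun m hm => hf m (by omega), root p g n hg, hr]
    exact agree p f g n (fun m hm => hf m (by omega)) hg hfn (n - m) m (by omega)
  -- the families of the levels `N k`
  set T : ℕ → (m : ℕ) → Pt b m → Bool := fun k => F p (N k) (S (N k) (hN2 k)) with hT
  have hT1 : ∀ k, ∀ m < N k, T k m = R (p m) (T k (m + 1)) := fun k m hm => F_step p _ _ m hm
  have hT2 : ∀ k, T k (N k) = S (N k) (hN2 k) := fun k => F_self p _ _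
  have hT3 : ∀ k, T k 0 (rt p 0) = true := by
    intro k
    rw [← root p (T k) (N k) (hT1 k), hT2]
    exact hS3 _ _
  have hTG : ∀ k, Good (cpl p J (N k)) (T k (N k)) := fun k => by rw [hT2]; exact hS1 _ _
  have hTS : ∀ k, Sgn (cpl p J (N k)) (T k (N k)) := fun k => by rw [hT2]; exact hS2 _ _
  have hTT : ∀ k k' m, m ≤ N k → m ≤ N k' → T k m = T k' m := by
    intro k k' m h1 h2
    rcases le_total (N k) (N k') with hle | hle
    · exact (hdet (N k) (N k') (T k') (T k) (hN2 k) hle (hT1 k') (hT1 k) (hTG k') (hTS k')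
        (hTG k) (hTS k) (by rw [hT3, hT3]) m h1).symm
    · exact hdet (N k') (N k) (T k) (T k') (hN2 k') hle (hT1 k) (hT1 k') (hTG k) (hTS k)
        (hTG k') (hTS k') (by rw [hT3, hT3]) m h2
  -- the ground state
  set σ : (m : ℕ) → Pt b m → Bool := fun m => T m m with hσ
  have hσ1 : ∀ m, σ m = R (p m) (σ (m + 1)) := by
    intro m
    have h1 : σ m = T (m + 1) m := hTT m (m + 1) m (hN1 m) (by have := hN1 (m + 1); omega)
    rw [h1, hT1 (m + 1) m (by have := hN1 (m + 1); omega)]
  have hσG : ∀ m, Good (cpl p J m) (σ m) := by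
    intro m
    exact fam_good h p J (N m) (T m) (hT1 m) (hTG m) (N m - m) m (by have := hN1 m; omega)
  have hσr : σ 0 (rt p 0) = true := hT3 0
  have hσS : ∀ m, |sib0 p J m| < |own0 p J m| → Sgn (cpl p J m) (σ m) := by
    intro m hm
    rw [hσ1 m]
    exact (down h p J m _ (hσG (m + 1))).2 hm
  -- good families are ground states
  have hgr : ∀ f : (m : ℕ) → Pt b m → Bool, (∀ m, f m = R (p m) (f (m + 1))) →
      (∀ m, Good (cpl p J m) (f m)) → IsGround p J f := by
    intro f hf1 hf2
    refine ⟨fun n x => ?_, fun n s hs => ?_⟩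
    · rw [hf1 n]
      rfl
    · refine lt_of_le_of_ne (hf2 n s) fun heq => hs ?_
      refine (hU n (fun t => f n (.inl t))).unique (fun s' => ?_) (hf2 n)
      rw [heq]
      exact hf2 n s'
  have hgr' : ∀ f : (m : ℕ) → Pt b m → Bool, IsGround p J f →
      (∀ m, f m = R (p m) (f (m + 1))) ∧ ∀ m, Good (cpl p J m) (f m) := by
    intro f hf
    refine ⟨fun m => funext fun x => (hf.consistent m x).symm, fun m s => ?_⟩
    by_cases hs : s = fun x => f m (.inr x)
    · rw [hs]
    · exact (hf.minimal m s hs).le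
  have huniq : ∀ f : (m : ℕ) → Pt b m → Bool, (∀ m, f m = R (p m) (f (m + 1))) →
      (∀ m, Good (cpl p J m) (f m)) → f 0 (rt p 0) = true → f = σ := by
    intro f hf1 hf2 hf3
    funext m
    refine hdet (N m) (N m) f σ (hN2 m) le_rfl (fun k _ => hf1 k) (fun k _ => hσ1 k) (hf2 _) ?_
      (hσG _) (hσS _ (hN2 m)) (by rw [hf3, hσr]) m (hN1 m)
    rw [hf1]
    exact (down h p J _ _ (hf2 _)).2 (hN2 m)
  refine ⟨σ, hgr σ hσ1 hσG, fun σ' => ⟨fun hg => ?_, ?_⟩⟩
  · obtain ⟨h1, h2⟩ := hgr' σ' hg
    by_cases hr : σ' 0 (rt p 0) = true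
    · exact Or.inl (huniq σ' h1 h2 hr)
    · right
      have h3 : (fun n => fl (σ' n)) = σ := by
        refine huniq _ (fun m => ?_) (fun m => good_flip (h2 m)) ?_
        · funext x
          change (!(σ' m x)) = !(σ' (m + 1) (emb (p m).1 (p m).2 x))
          rw [h1 m]
          rfl
        · unfold fl
          simpa using hr
      rw [← h3]
      funext n x
      simp [fl]
  · rintro (rfl | rfl)
    · exact hgr _ hσ1 hσG
    · refine hgr _ (fun m => ?_) (fun m => good_flip (hσG m))
      funext x
      change (!(σ m x)) = !(σ (m + 1) (emb (p m).1 (p m).2 x))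
      rw [hσ1 m]
      rfl

end Pool.Agent.N186.EZ
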