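import Pool.Agent.N378.KH.Stm

/-!
# Project KH (helper378), part PIM (helper186): the product measure is at most a multiple of the volume

The comparison of the product measures is the argument of `Pool.Agent.BSheet.L_gauss_density`
(`h208_pi_le`).
-/

set_option autoImplicit false

open MeasureTheory Finset
open scoped ENNReal

namespace Pool.Agent.N186.KH

open Pool.Agent.N378.KH

theorem pi_le {ι : Type} [Fintype ι] (ν : ι → Measure ℝ) [∀ i, SigmaFinite (ν i)]
    (c : ℝ≥0∞) (hc0 : c ≠ 0) (hct : c ≠ ⊤)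
    (h : ∀ i, ∀ s, ν i s ≤ c * volume s) (s : Set (ι → ℝ)) (hs : MeasurableSet s) :
    Measure.pi ν s ≤ c ^ Fintype.card ι * volume s := by
  have hN0 : c ^ Fintype.card ι ≠ 0 := pow_ne_zero _ hc0
  have hNt : c ^ Fintype.card ι ≠ ⊤ := ENNReal.pow_ne_top hct
  have key : ((c ^ Fintype.card ι)⁻¹ • (Measure.pi ν).toOuterMeasure)
      ≤ OuterMeasure.pi (fun _ : ι => (volume : Measure ℝ).toOuterMeasure) := by
    rw [OuterMeasure.le_pi]
    intro t _
    rw [smul_apply, smul_eq_mul]
    change (c ^ Fintype.card ι)⁻¹ * (Measure.pi ν) (Set.pi Set.univ t) ≤ ∏ i, volume (t i)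
    rw [Measure.pi_pi]
    calc (c ^ Fintype.card ι)⁻¹ * ∏ i, ν i (t i)
        ≤ (c ^ Fintype.card ι)⁻¹ * ∏ i, (c * volume (t i)) := by
          gcongr with i _
          exact h i (t i)
      _ = (c ^ Fintype.card ι)⁻¹ * c ^ Fintype.card ι * ∏ i, volume (t i) := by
          rw [Finset.prod_mul_distrib, Finset.prod_const, Finset.card_univ, mul_assoc]
      _ = ∏ i, volume (t i) := by rw [ENNReal.inv_mul_cancel hN0 hNt, one_mul]
  have h2 : (volume : Measure (ι → ℝ)) s
      = OuterMeasure.pi (fun _ : ι => (volume : Measure ℝ).toOuterMeasure) s := by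
    rw [volume_pi, Measure.pi_def]
    exact toMeasure_apply _ _ hs
  have h3 := key s
  rw [← h2, smul_apply, smul_eq_mul] at h3
  change (c ^ Fintype.card ι)⁻¹ * (Measure.pi ν) s ≤ volume s at h3
  calc Measure.pi ν s = c ^ Fintype.card ι * ((c ^ Fintype.card ι)⁻¹ * Measure.pi ν s) := by
        rw [← mul_assoc, ENNReal.mul_inv_cancel hN0 hNt, one_mul]
    _ ≤ c ^ Fintype.card ι * volume s := by gcongr

theorem t_PIM : Pool.Agent.N378.KH.S_PIM := by
  intro n m D ν hD hν S
  obtain ⟨hp, hle⟩ := hν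
  have : ∀ e : S, IsProbabilityMeasure (ν e) := fun e => hp e
  rw [Measure.le_iff]
  intro s hs
  have h := pi_le (fun e : S => ν e) (ENNReal.ofReal D) (by simpa using hD) ENNReal.ofReal_ne_top
    (fun i t => by
      refine (hle i t).trans ?_
      rw [Measure.smul_apply, smul_eq_mul]
      gcongr
      exact Measure.restrict_le_self) s hs
  rw [Measure.smul_apply, smul_eq_mul]
  rw [Fintype.card_coe] at h
  exact h

end Pool.Agent.N186.KH
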